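import Pool.Agent.Lib_helper45.PPQ2.Alt
import Pool.Agent.Lib_helper45.PPQ2.Asym

/-!
In the model of branching programs with few reads the PP mode is properly contained in the PSPACE
mode; in fact already the P^NP mode is not contained in the PP mode.
-/

namespace Pool.Agent.Lib_helper26.Retired.FewReadPPvsPSPACE

open Pool.Agent.Lib_helper45.PPQ2

/-- The inclusion of the PP mode in the PSPACE mode, and its strictness: `LastOdd n T` is the P^NP
mode and a PSPACE mode of small read-once programs, and it is the PP mode only of many or of large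
programs, even if they may read every variable `r` times. -/
theorem result :
    (∀ {V N : Type} [DecidableEq V] {Y : ℕ} (A : Fin Y → BP V N),
      ∃ (q : List Bool) (B : List Bool → BP V (Option N)),
        q.length ≤ (Nat.log 2 Y + 2) ^ 2 ∧
        (∀ (r : ℕ) (x : V), (∀ y, (A y).ReadsAtMost r x) → ∀ w, (B w).ReadsAtMost r x) ∧
        ∀ v, PPMode A v ↔ PSPACEMode q B v) ∧
    (∀ ε : ℝ, 0 < ε → ε < 1 / 3 → ∃ n0 : ℕ, ∀ n ≥ n0, ∀ T : ℕ, T = ⌊(n : ℝ) ^ (1 - ε)⌋₊ →
      (∃ (N : Type) (_ : Fintype N) (A : Fin T → BP (Var n T) N)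
        (B : List Bool → BP (Var n T) N), Fintype.card N ≤ n ^ 4 ∧
          (∀ y x, (A y).ReadsAtMost 1 x) ∧ (∀ w x, (B w).ReadsAtMost 1 x) ∧
          ∀ v, (LastOdd n T v ↔ PNPMode A v) ∧ (LastOdd n T v ↔ PSPACEMode
            (List.replicate (kk n + 1) true ++ List.replicate (kk n + 1) false) B v)) ∧
      (∀ r : ℕ, (r : ℝ) ≤ ε / 8 * Real.logb 2 n → ∀ (N : Type) [Fintype N] (Y : ℕ)
        (A : Fin Y → BP (Var n T) N), (∀ y i, (A y).ReadsAtMost r (Sum.inr i)) →
          (∀ v, PPMode A v ↔ LastOdd n T v) →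
          (2 : ℝ) ^ ((n : ℝ) ^ (1 / 3 - ε)) ≤ Y * (Fintype.card N : ℝ) ^ (2 * r))) := by
  refine ⟨fun A => pp_sub A, fun ε h0 h3 => ?_⟩
  obtain ⟨n0, hl⟩ := lower ε h0 h3
  refine ⟨max n0 32, fun n hn T hT => ⟨?_, fun r hr N _ Y A hA hf => ?_⟩⟩
  · have h32 : 32 ≤ n := le_trans (le_max_right _ _) hn
    have hTn : T ≤ n := by
      rw [hT]
      apply Nat.floor_le_of_le
      have h1 : (1 : ℝ) ≤ n := by
        have : 1 ≤ n := by omega
        exact_mod_cast this
      calc (n : ℝ) ^ (1 - ε) ≤ (n : ℝ) ^ (1 : ℝ) :=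
            Real.rpow_le_rpow_of_exponent_le h1 (by linarith)
        _ = n := Real.rpow_one _
    exact ⟨NN n, inferInstance, prog true, BB n T, card_NN_le h32,
      fun y x => prog_reads true y x, fun w x => BB_reads n T w x,
      fun v => ⟨pnp n T v, hard_pspace hTn v⟩⟩
  · exact hl n (le_trans (le_max_left _ _) hn) r hr T hT N Y A hA hf

end Pool.Agent.Lib_helper26.Retired.FewReadPPvsPSPACE
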